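import Mathlib
import Pool.Agent.J4H58.Arn.Arnold
import Pool.Agent.J4H58.Arn.Fib

/-!
# Exact Lagrangians that meet the cotangent spaces in convex sets

Let `j : L → T^*N` be an exact Lagrange embedding of closed manifolds such that `j(L)` meets each
cotangent space `T^*_q N` in a nonempty convex set (for instance in exactly one point, without
being transversal to it). Then `j` extends to a symplectic diffeomorphism `T^*L → T^*N`; if
`L ≅ N` then `j(L) = ψ(0_N)` for a symplectic diffeomorphism `ψ` of `T^*N`.
-/

open scoped Topology ContDiff Manifold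
open Set Bundle Filter

noncomputable section

namespace Pool.Agent.Results.MP_3dbb84_gt.ConvexFibres

/-! ### The cotangent bundle as a smooth manifold -/

section Cotangent

variable (F : Type*) [NormedAddCommGroup F] [NormedSpace ℝ F]
  (L : Type*) [TopologicalSpace L] [ChartedSpace F L]

/-- The cotangent space of `L` at `q`. -/
def CotangentSpace (q : L) : Type _ := TangentSpace 𝓘(ℝ, F) q →L[ℝ] ℝ

/-- The topology of the cotangent space, from Mathlib. -/
@[instance_reducible] def topCotangentSpace (q : L) : TopologicalSpace (CotangentSpace F L q) :=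
  (inferInstance : TopologicalSpace (TangentSpace 𝓘(ℝ, F) q →L[ℝ] ℝ))

attribute [instance] topCotangentSpace

/-- The cotangent bundle of `L`. -/
abbrev CotangentBundle : Type _ := TotalSpace (F →L[ℝ] ℝ) (CotangentSpace F L)

/-- The topology of the cotangent bundle: the one of the Mathlib bundle of continuous linear
maps from the tangent bundle to the trivial line bundle. -/
@[instance_reducible] def topCotangentBundle [IsManifold 𝓘(ℝ, F) ∞ L] :
    TopologicalSpace (CotangentBundle F L) :=
  ContinuousLinearMap.topologicalSpaceTotalSpace (RingHom.id ℝ) F (TangentSpace 𝓘(ℝ, F)) ℝ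
    (fun _ : L => ℝ)

attribute [instance] topCotangentBundle

/-- The fibre bundle structure of the cotangent bundle: the one of the Mathlib bundle of
continuous linear maps from the tangent bundle to the trivial line bundle. -/
@[instance_reducible] def fibCotangentBundle [IsManifold 𝓘(ℝ, F) ∞ L] :
    FiberBundle (F →L[ℝ] ℝ) (CotangentSpace F L) :=
  ContinuousLinearMap.fiberBundle (RingHom.id ℝ) F (TangentSpace 𝓘(ℝ, F)) ℝ (fun _ : L => ℝ)

attribute [instance] fibCotangentBundle

/-- The model vector space `F × F^*` of the cotangent bundle. -/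
def CotangentModel : Type _ := F × (F →L[ℝ] ℝ)

@[instance_reducible] def normCotangentModel : NormedAddCommGroup (CotangentModel F) :=
  (inferInstance : NormedAddCommGroup (F × (F →L[ℝ] ℝ)))

attribute [instance] normCotangentModel

@[instance_reducible] def spaceCotangentModel : NormedSpace ℝ (CotangentModel F) :=
  (inferInstance : NormedSpace ℝ (F × (F →L[ℝ] ℝ)))

attribute [instance] spaceCotangentModel

/-- The smooth structure of the cotangent bundle: the one that Mathlib puts on the total space
of a smooth vector bundle. -/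
@[instance_reducible] def chartedCotangentBundle [IsManifold 𝓘(ℝ, F) ∞ L] :
    ChartedSpace (CotangentModel F) (CotangentBundle F L) :=
  FiberBundle.chartedSpace (F := F →L[ℝ] ℝ) (E := CotangentSpace F L) (HB := F)

attribute [instance] chartedCotangentBundle

/-- The model with corners of the cotangent bundle, without boundary. -/
def cotangentCorners : ModelWithCorners ℝ (CotangentModel F) (CotangentModel F) :=
  𝓘(ℝ, F).prod 𝓘(ℝ, F →L[ℝ] ℝ)

end Cotangent

/-! ### One-forms and their exterior derivative -/

section OneForms

variable {E : Type*} [NormedAddCommGroup E] [NormedSpace ℝ E] {H : Type*} [TopologicalSpace H]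
  (I : ModelWithCorners ℝ E H) (X : Type*) [TopologicalSpace X] [ChartedSpace H X]

/-- One-forms on `X`. -/
abbrev OneForm : Type _ := (x : X) → TangentSpace I x →L[ℝ] ℝ

variable {I X}

/-- The value of the one-form `α` on the tangent vector `v` at `x`. -/
def eval (α : OneForm I X) (x : X) (v : TangentSpace I x) : ℝ := α x v

/-- The one-form `α` written in the preferred chart `φ` at `x`: at the point `y` of the model
space `E` it is the pull back of `α` by `φ⁻¹`. -/
def formInChart (α : OneForm I X) (x : X) (y : E) : E →L[ℝ] ℝ :=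
  (α ((extChartAt I x).symm y)).comp (mfderiv 𝓘(ℝ, E) I (extChartAt I x).symm y)

/-- The derivative in the direction `u` of the coefficient `α v`, at `x`, in the preferred chart
at `x` (in which the tangent space at `x` is identified with `E`). -/
def coefficientDerivative (α : OneForm I X) (x : X) (u v : TangentSpace I x) : ℝ :=
  fderiv ℝ (formInChart α x) (extChartAt I x x) u v

/-- The exterior derivative `dα` at `x`, on the tangent vectors `u` and `v`. -/
def exteriorDerivative (α : OneForm I X) (x : X) (u v : TangentSpace I x) : ℝ :=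
  coefficientDerivative α x u v - coefficientDerivative α x v u

/-- The differential of a real valued function. -/
def differential (I : ModelWithCorners ℝ E H) (f : X → ℝ) : OneForm I X :=
  fun x => mfderiv I 𝓘(ℝ, ℝ) f x

variable {E' : Type*} [NormedAddCommGroup E'] [NormedSpace ℝ E'] {H' : Type*}
  [TopologicalSpace H'] {Y : Type*} [TopologicalSpace Y] [ChartedSpace H' Y]

/-- The derivative of the map `f` at `x`, applied to the tangent vector `v`. -/
def derivativeAt (I : ModelWithCorners ℝ E H) (J : ModelWithCorners ℝ E' H') (f : X → Y) (x : X)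
    (v : TangentSpace I x) : TangentSpace J (f x) := mfderiv I J f x v

end OneForms

section Definitions

variable {F : Type*} [NormedAddCommGroup F] [NormedSpace ℝ F]
  {N : Type*} [TopologicalSpace N] [ChartedSpace F N] [IsManifold 𝓘(ℝ, F) ∞ N]
  {L : Type*} [TopologicalSpace L] [ChartedSpace F L] [IsManifold 𝓘(ℝ, F) ∞ L]

variable (F L) in
/-- The canonical one-form `λ = p dq` of the cotangent bundle: at the covector `ξ` it sends the
tangent vector `w` to `ξ (dπ w)`, where `π` is the projection to `L`. -/
def canonicalForm : OneForm (cotangentCorners F) (CotangentBundle F L) :=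
  fun ξ => ContinuousLinearMap.comp (M₂ := TangentSpace 𝓘(ℝ, F) ξ.proj) (M₃ := ℝ) ξ.snd
    (mfderiv (cotangentCorners F) 𝓘(ℝ, F) (TotalSpace.proj : CotangentBundle F L → L) ξ)

variable (F L) in
/-- The diffeomorphism type `T^*L → T^*N`. -/
abbrev CotangentDiffeomorphism (N : Type*) [TopologicalSpace N] [ChartedSpace F N]
    [IsManifold 𝓘(ℝ, F) ∞ N] : Type _ :=
  Diffeomorph (cotangentCorners F) (cotangentCorners F) (CotangentBundle F L)
    (CotangentBundle F N) ∞

variable (F) in
/-- The zero section. -/
def zeroSection (q : L) : CotangentBundle F L := ⟨q, (0 : TangentSpace 𝓘(ℝ, F) q →L[ℝ] ℝ)⟩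

/-- `j : L → T^*N` is an exact Lagrange embedding: a smooth embedding such that `j^* λ = df`.
(The manifolds `L` and `N` are modelled on the same vector space, so that they have the same
dimension.) -/
structure ExactLagrangeEmbedding (j : L → CotangentBundle F N) : Prop where
  smooth : ContMDiff 𝓘(ℝ, F) (cotangentCorners F) ∞ j
  embedding : Topology.IsEmbedding j
  immersion : ∀ z, Function.Injective (derivativeAt 𝓘(ℝ, F) (cotangentCorners F) j z)
  exact : ∃ f : L → ℝ, ContMDiff 𝓘(ℝ, F) 𝓘(ℝ, ℝ) ∞ f ∧
    ∀ (z : L) (v : TangentSpace 𝓘(ℝ, F) z),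
      eval (canonicalForm F N) (j z) (derivativeAt 𝓘(ℝ, F) (cotangentCorners F) j z v) =
        eval (differential 𝓘(ℝ, F) f) z v

/-- `Φ^* ω = ω` for the canonical symplectic form `ω = dλ`. -/
def IsSymplectic (Φ : CotangentBundle F L → CotangentBundle F N) : Prop :=
  ∀ (ξ : CotangentBundle F L) (u v : TangentSpace (cotangentCorners F) ξ),
    exteriorDerivative (canonicalForm F N) (Φ ξ)
      (derivativeAt (cotangentCorners F) (cotangentCorners F) Φ ξ u)
      (derivativeAt (cotangentCorners F) (cotangentCorners F) Φ ξ v) =
    exteriorDerivative (canonicalForm F L) ξ u v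

/-- The manifolds `L` and `N` are diffeomorphic. -/
def AreDiffeomorphic (F : Type*) [NormedAddCommGroup F] [NormedSpace ℝ F]
    (L : Type*) [TopologicalSpace L] [ChartedSpace F L]
    (N : Type*) [TopologicalSpace N] [ChartedSpace F N] : Prop :=
  Nonempty (Diffeomorph 𝓘(ℝ, F) 𝓘(ℝ, F) L N ∞)

/-- Arnold's conclusion: there is a symplectic diffeomorphism `ψ` of `T^*N` such that
`ψ(0_N) = j(L)`. -/
def ArnoldConclusion (j : L → CotangentBundle F N) : Prop :=
  ∃ ψ : CotangentDiffeomorphism F N N, IsSymplectic ψ ∧
    ψ '' range (zeroSection F : N → CotangentBundle F N) = range j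

/-- There is a symplectic diffeomorphism `Φ : T^*L → T^*N` that is `j` on the zero section. -/
def ExtendsToCotangentBundle (j : L → CotangentBundle F N) : Prop :=
  ∃ Φ : CotangentDiffeomorphism F L N, IsSymplectic Φ ∧ ∀ z, Φ (zeroSection F z) = j z

/-- The set of the covectors `p` of `N` at the point `q` such that `(q, p)` is in `j(L)`. -/
def fibreAt (j : L → CotangentBundle F N) (q : N) : Set (TangentSpace 𝓘(ℝ, F) q →L[ℝ] ℝ) :=
  {p | (⟨q, p⟩ : CotangentBundle F N) ∈ range j}

end Definitions

open Pool.Agent.J4H58.Arn Pool.Agent.Helper186 in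
/-- **Theorem.** Let `j : L → T^*N` be an exact Lagrange embedding, where `N` and `L` are closed
manifolds, that meets each cotangent space of `N` in a nonempty convex set. Then there is a
symplectic diffeomorphism `T^*L → T^*N` that is `j` on the zero section. If moreover `L` and `N`
are diffeomorphic, then there is a symplectic diffeomorphism `ψ` of `T^*N` with
`ψ(0_N) = j(L)`. -/
theorem result
    {F : Type*} [NormedAddCommGroup F] [NormedSpace ℝ F] [FiniteDimensional ℝ F]
    {N : Type*} [TopologicalSpace N] [T2Space N] [CompactSpace N] [ChartedSpace F N]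
    [IsManifold 𝓘(ℝ, F) ∞ N]
    {L : Type*} [TopologicalSpace L] [T2Space L] [CompactSpace L] [Nonempty L]
    [ChartedSpace F L] [IsManifold 𝓘(ℝ, F) ∞ L]
    (j : L → CotangentBundle F N) (hj : ExactLagrangeEmbedding j)
    (hne : ∀ q : N, (fibreAt j q).Nonempty) (hconv : ∀ q : N, Convex ℝ (fibreAt j q)) :
    ExtendsToCotangentBundle j ∧ (AreDiffeomorphic F L N → ArnoldConclusion j) := by
  obtain ⟨hjs, hje, hjimm, f₀, hf₀, hex⟩ := hj
  obtain ⟨Φ, hΦ, hΦj⟩ := ext_of_convex (j := j) hjs hje hjimm hconv hne hf₀ hex
  have hext : ExtendsToCotangentBundle j := ⟨Φ, hΦ.extDer, hΦj⟩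
  have harn : ArnoldConclusion j ↔ (AreDiffeomorphic F L N ∧ ExtendsToCotangentBundle j) :=
    arnold_iff (ι := j) hjs hje hjimm
  exact ⟨hext, fun h => harn.2 ⟨h, hext⟩⟩

end Pool.Agent.Results.MP_3dbb84_gt.ConvexFibres
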