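import Mathlib
import Pool.Agent.J4H58.Arn.Arnold

/-!
# Exact Lagrangians in cotangent bundles and symplectic homeomorphisms

Let `j : L → T^*N` be an exact Lagrange embedding of closed manifolds. Arnold's conclusion (there
is a symplectic diffeomorphism `ψ` of `T^*N` with `ψ(0_N) = j(L)`) is equivalent to the following:
`L` is diffeomorphic to `N` and `j(L) = h(0_N)` for an exact symplectic homeomorphism `h` (a limit
of exact symplectic diffeomorphisms in the compact-open topology). Other equivalent conditions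
are given in terms of neighbourhoods of `j(L)`, of Weinstein charts and of attractors.
-/

open scoped Topology ContDiff Manifold
open Set Bundle Filter

noncomputable section

namespace Pool.Agent.Results.MP_3dbb84_gt.SymplecticHomeomorphisms

/-! ### The cotangent bundle as a smooth manifold -/

section Cotangent

variable (F : Type*) [NormedAddCommGroup F] [NormedSpace ℝ F]
  (L : Type*) [TopologicalSpace L] [ChartedSpace F L]

/-- The cotangent space of `L` at `q`. -/
def CotangentSpace (q : L) : Type _ := TangentSpace 𝓘(ℝ, F) q →L[ℝ] ℝ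

/-- The topology of the cotangent space, from Mathlib. -/
@[instance_reducible] def topCotangentSpace (q : L) : TopologicalSpace (CotangentSpace F L q) :=
  (inferInstance : TopologicalSpace (TangentSpace 𝓘(ℝ, F) q →L[ℝ] ℝ))

attribute [instance] topCotangentSpace

/-- The cotangent bundle of `L`. -/
abbrev CotangentBundle : Type _ := TotalSpace (F →L[ℝ] ℝ) (CotangentSpace F L)

/-- The topology of the cotangent bundle: the one of the Mathlib bundle of continuous linear
maps from the tangent bundle to the trivial line bundle. -/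
@[instance_reducible] def topCotangentBundle [IsManifold 𝓘(ℝ, F) ∞ L] :
    TopologicalSpace (CotangentBundle F L) :=
  ContinuousLinearMap.topologicalSpaceTotalSpace (RingHom.id ℝ) F (TangentSpace 𝓘(ℝ, F)) ℝ
    (fun _ : L => ℝ)

attribute [instance] topCotangentBundle

/-- The fibre bundle structure of the cotangent bundle: the one of the Mathlib bundle of
continuous linear maps from the tangent bundle to the trivial line bundle. -/
@[instance_reducible] def fibCotangentBundle [IsManifold 𝓘(ℝ, F) ∞ L] :
    FiberBundle (F →L[ℝ] ℝ) (CotangentSpace F L) :=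
  ContinuousLinearMap.fiberBundle (RingHom.id ℝ) F (TangentSpace 𝓘(ℝ, F)) ℝ (fun _ : L => ℝ)

attribute [instance] fibCotangentBundle

/-- The model vector space `F × F^*` of the cotangent bundle. -/
def CotangentModel : Type _ := F × (F →L[ℝ] ℝ)

@[instance_reducible] def normCotangentModel : NormedAddCommGroup (CotangentModel F) :=
  (inferInstance : NormedAddCommGroup (F × (F →L[ℝ] ℝ)))

attribute [instance] normCotangentModel

@[instance_reducible] def spaceCotangentModel : NormedSpace ℝ (CotangentModel F) :=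
  (inferInstance : NormedSpace ℝ (F × (F →L[ℝ] ℝ)))

attribute [instance] spaceCotangentModel

/-- The smooth structure of the cotangent bundle: the one that Mathlib puts on the total space
of a smooth vector bundle. -/
@[instance_reducible] def chartedCotangentBundle [IsManifold 𝓘(ℝ, F) ∞ L] :
    ChartedSpace (CotangentModel F) (CotangentBundle F L) :=
  FiberBundle.chartedSpace (F := F →L[ℝ] ℝ) (E := CotangentSpace F L) (HB := F)

attribute [instance] chartedCotangentBundle

/-- The model with corners of the cotangent bundle, without boundary. -/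
def cotangentCorners : ModelWithCorners ℝ (CotangentModel F) (CotangentModel F) :=
  𝓘(ℝ, F).prod 𝓘(ℝ, F →L[ℝ] ℝ)

end Cotangent

/-! ### One-forms and their exterior derivative -/

section OneForms

variable {E : Type*} [NormedAddCommGroup E] [NormedSpace ℝ E] {H : Type*} [TopologicalSpace H]
  (I : ModelWithCorners ℝ E H) (X : Type*) [TopologicalSpace X] [ChartedSpace H X]

/-- One-forms on `X`. -/
abbrev OneForm : Type _ := (x : X) → TangentSpace I x →L[ℝ] ℝ

variable {I X}

/-- The value of the one-form `α` on the tangent vector `v` at `x`. -/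
def eval (α : OneForm I X) (x : X) (v : TangentSpace I x) : ℝ := α x v

/-- The one-form `α` written in the preferred chart `φ` at `x`: at the point `y` of the model
space `E` it is the pull back of `α` by `φ⁻¹`. -/
def formInChart (α : OneForm I X) (x : X) (y : E) : E →L[ℝ] ℝ :=
  (α ((extChartAt I x).symm y)).comp (mfderiv 𝓘(ℝ, E) I (extChartAt I x).symm y)

/-- The derivative in the direction `u` of the coefficient `α v`, at `x`, in the preferred chart
at `x` (in which the tangent space at `x` is identified with `E`). -/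
def coefficientDerivative (α : OneForm I X) (x : X) (u v : TangentSpace I x) : ℝ :=
  fderiv ℝ (formInChart α x) (extChartAt I x x) u v

/-- The exterior derivative `dα` at `x`, on the tangent vectors `u` and `v`. -/
def exteriorDerivative (α : OneForm I X) (x : X) (u v : TangentSpace I x) : ℝ :=
  coefficientDerivative α x u v - coefficientDerivative α x v u

/-- The differential of a real valued function. -/
def differential (I : ModelWithCorners ℝ E H) (f : X → ℝ) : OneForm I X :=
  fun x => mfderiv I 𝓘(ℝ, ℝ) f x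

variable {E' : Type*} [NormedAddCommGroup E'] [NormedSpace ℝ E'] {H' : Type*}
  [TopologicalSpace H'] {Y : Type*} [TopologicalSpace Y] [ChartedSpace H' Y]

/-- The derivative of the map `f` at `x`, applied to the tangent vector `v`. -/
def derivativeAt (I : ModelWithCorners ℝ E H) (J : ModelWithCorners ℝ E' H') (f : X → Y) (x : X)
    (v : TangentSpace I x) : TangentSpace J (f x) := mfderiv I J f x v

end OneForms

section Definitions

variable {F : Type*} [NormedAddCommGroup F] [NormedSpace ℝ F]
  {N : Type*} [TopologicalSpace N] [ChartedSpace F N] [IsManifold 𝓘(ℝ, F) ∞ N]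
  {L : Type*} [TopologicalSpace L] [ChartedSpace F L] [IsManifold 𝓘(ℝ, F) ∞ L]

variable (F L) in
/-- The canonical one-form `λ = p dq` of the cotangent bundle: at the covector `ξ` it sends the
tangent vector `w` to `ξ (dπ w)`, where `π` is the projection to `L`. -/
def canonicalForm : OneForm (cotangentCorners F) (CotangentBundle F L) :=
  fun ξ => ContinuousLinearMap.comp (M₂ := TangentSpace 𝓘(ℝ, F) ξ.proj) (M₃ := ℝ) ξ.snd
    (mfderiv (cotangentCorners F) 𝓘(ℝ, F) (TotalSpace.proj : CotangentBundle F L → L) ξ)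

variable (F L) in
/-- The diffeomorphism type `T^*L → T^*N`. -/
abbrev CotangentDiffeomorphism (N : Type*) [TopologicalSpace N] [ChartedSpace F N]
    [IsManifold 𝓘(ℝ, F) ∞ N] : Type _ :=
  Diffeomorph (cotangentCorners F) (cotangentCorners F) (CotangentBundle F L)
    (CotangentBundle F N) ∞

variable (F) in
/-- The zero section. -/
def zeroSection (q : L) : CotangentBundle F L := ⟨q, (0 : TangentSpace 𝓘(ℝ, F) q →L[ℝ] ℝ)⟩

/-- Multiplication by `s` in the fibres. -/
def scaling (s : ℝ) (ξ : CotangentBundle F L) : CotangentBundle F L :=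
  ⟨ξ.proj, s • (show TangentSpace 𝓘(ℝ, F) ξ.proj →L[ℝ] ℝ from ξ.snd)⟩

/-- `j : L → T^*N` is an exact Lagrange embedding: a smooth embedding such that `j^* λ = df`.
(The manifolds `L` and `N` are modelled on the same vector space, so that they have the same
dimension.) -/
structure ExactLagrangeEmbedding (j : L → CotangentBundle F N) : Prop where
  smooth : ContMDiff 𝓘(ℝ, F) (cotangentCorners F) ∞ j
  embedding : Topology.IsEmbedding j
  immersion : ∀ z, Function.Injective (derivativeAt 𝓘(ℝ, F) (cotangentCorners F) j z)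
  exact : ∃ f : L → ℝ, ContMDiff 𝓘(ℝ, F) 𝓘(ℝ, ℝ) ∞ f ∧
    ∀ (z : L) (v : TangentSpace 𝓘(ℝ, F) z),
      eval (canonicalForm F N) (j z) (derivativeAt 𝓘(ℝ, F) (cotangentCorners F) j z v) =
        eval (differential 𝓘(ℝ, F) f) z v

/-- `Φ^* ω = ω` for the canonical symplectic form `ω = dλ`. -/
def IsSymplectic (Φ : CotangentBundle F L → CotangentBundle F N) : Prop :=
  ∀ (ξ : CotangentBundle F L) (u v : TangentSpace (cotangentCorners F) ξ),
    exteriorDerivative (canonicalForm F N) (Φ ξ)
      (derivativeAt (cotangentCorners F) (cotangentCorners F) Φ ξ u)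
      (derivativeAt (cotangentCorners F) (cotangentCorners F) Φ ξ v) =
    exteriorDerivative (canonicalForm F L) ξ u v

/-- `Φ^* λ = a λ + df` for a smooth function `f`. -/
def IsExactConformal (a : ℝ) (Φ : CotangentBundle F L → CotangentBundle F N) : Prop :=
  ∃ f : CotangentBundle F L → ℝ, ContMDiff (cotangentCorners F) 𝓘(ℝ, ℝ) ∞ f ∧
    ∀ (ξ : CotangentBundle F L) (v : TangentSpace (cotangentCorners F) ξ),
      eval (canonicalForm F N) (Φ ξ)
        (derivativeAt (cotangentCorners F) (cotangentCorners F) Φ ξ v) =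
      a * eval (canonicalForm F L) ξ v + eval (differential (cotangentCorners F) f) ξ v

/-- `Φ^* λ = λ + df` for a smooth function `f`. -/
def IsExactSymplectic (Φ : CotangentBundle F L → CotangentBundle F N) : Prop :=
  IsExactConformal 1 Φ

/-- `V` is an open neighbourhood of the zero section that is star-shaped in each fibre. -/
structure StarShapedNeighbourhood (V : Set (CotangentBundle F L)) : Prop where
  isOpen : IsOpen V
  zero_mem : ∀ q, zeroSection F q ∈ V
  star : ∀ s ∈ Icc (0:ℝ) 1, ∀ ξ ∈ V, scaling s ξ ∈ V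

/-- `w` restricts to a diffeomorphism of the star-shaped neighbourhood `O` of the zero section
of `T^*L` with the open set `w(O) ⊆ T^*N`, with `w^* λ = λ + dg` on `O`, and `w` is `j` on the
zero section. -/
structure WeinsteinChart (j : L → CotangentBundle F N) (O : Set (CotangentBundle F L))
    (w : CotangentBundle F L → CotangentBundle F N) : Prop where
  nhd : StarShapedNeighbourhood O
  smooth : ContMDiffOn (cotangentCorners F) (cotangentCorners F) ∞ w O
  open_image : IsOpen (w '' O)
  inverse : ∃ w' : CotangentBundle F N → CotangentBundle F L,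
    ContMDiffOn (cotangentCorners F) (cotangentCorners F) ∞ w' (w '' O) ∧ ∀ ξ ∈ O, w' (w ξ) = ξ
  exact : ∃ g : CotangentBundle F L → ℝ, ContMDiffOn (cotangentCorners F) 𝓘(ℝ, ℝ) ∞ g O ∧
    ∀ ξ ∈ O, ∀ v : TangentSpace (cotangentCorners F) ξ,
      eval (canonicalForm F N) (w ξ)
        (derivativeAt (cotangentCorners F) (cotangentCorners F) w ξ v) =
      eval (canonicalForm F L) ξ v + eval (differential (cotangentCorners F) g) ξ v
  zero : ∀ z, w (zeroSection F z) = j z

/-- `K` is invariant under `G` and attracts the compact sets. -/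
def IsGlobalAttractor (G : CotangentBundle F N → CotangentBundle F N)
    (K : Set (CotangentBundle F N)) : Prop :=
  G '' K = K ∧ ∀ C : Set (CotangentBundle F N), IsCompact C →
    ∀ U : Set (CotangentBundle F N), IsOpen U → K ⊆ U → ∀ᶠ n : ℕ in atTop, G^[n] '' C ⊆ U

/-- The homeomorphism `h` of `T^*N` is the limit, together with its inverse, of exact symplectic
diffeomorphisms, in the compact-open topology (uniform convergence on compact sets). -/
def IsExactSymplecticHomeomorphism (h : CotangentBundle F N ≃ₜ CotangentBundle F N) : Prop :=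
  ∃ ψ : ℕ → CotangentDiffeomorphism F N N, (∀ n, IsExactSymplectic (ψ n)) ∧
    Tendsto (fun n => (⟨ψ n, (ψ n).continuous⟩ : C(CotangentBundle F N, CotangentBundle F N)))
      atTop (𝓝 ⟨h, h.continuous⟩) ∧
    Tendsto (fun n => (⟨(ψ n).symm, (ψ n).symm.continuous⟩ :
      C(CotangentBundle F N, CotangentBundle F N))) atTop (𝓝 ⟨h.symm, h.symm.continuous⟩)

/-- The manifolds `L` and `N` are diffeomorphic. -/
def AreDiffeomorphic (F : Type*) [NormedAddCommGroup F] [NormedSpace ℝ F]
    (L : Type*) [TopologicalSpace L] [ChartedSpace F L]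
    (N : Type*) [TopologicalSpace N] [ChartedSpace F N] : Prop :=
  Nonempty (Diffeomorph 𝓘(ℝ, F) 𝓘(ℝ, F) L N ∞)

/-- Arnold's conclusion: there is a symplectic diffeomorphism `ψ` of `T^*N` such that
`ψ(0_N) = j(L)`. -/
def ArnoldConclusion (j : L → CotangentBundle F N) : Prop :=
  ∃ ψ : CotangentDiffeomorphism F N N, IsSymplectic ψ ∧
    ψ '' range (zeroSection F : N → CotangentBundle F N) = range j

/-- There is a symplectic diffeomorphism `Φ : T^*L → T^*N` that is `j` on the zero section. -/
def ExtendsToCotangentBundle (j : L → CotangentBundle F N) : Prop :=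
  ∃ Φ : CotangentDiffeomorphism F L N, IsSymplectic Φ ∧ ∀ z, Φ (zeroSection F z) = j z

/-- The set `U` contains a set `ψ(V)` that contains `j(L)`, where `ψ` is an exact symplectic
diffeomorphism of `T^*N` and `V` is a star-shaped neighbourhood of the zero section. -/
def ContainsStandardNeighbourhood (j : L → CotangentBundle F N)
    (U : Set (CotangentBundle F N)) : Prop :=
  ∃ ψ : CotangentDiffeomorphism F N N, IsExactSymplectic ψ ∧
    ∃ V : Set (CotangentBundle F N), StarShapedNeighbourhood V ∧
      range j ⊆ ψ '' V ∧ ψ '' V ⊆ U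

end Definitions

section Proof

open Pool.Agent.J4H58.Arn Pool.Agent.Helper186

set_option linter.unusedSectionVars false

variable {F : Type*} [NormedAddCommGroup F] [NormedSpace ℝ F] [FiniteDimensional ℝ F]
  {N : Type*} [TopologicalSpace N] [ChartedSpace F N] [IsManifold 𝓘(ℝ, F) ∞ N]
  {L : Type*} [TopologicalSpace L] [ChartedSpace F L] [IsManifold 𝓘(ℝ, F) ∞ L]

lemma csymp_of {a : ℝ} {Φ : CotangentDiffeomorphism F L N} (h : IsExactConformal a Φ) :
    CSymp (L := L) (N := N) a Φ :=
  ⟨Φ.contMDiff, h⟩

lemma of_csymp {a : ℝ} {Φ : CotangentDiffeomorphism F L N} (h : CSymp (L := L) (N := N) a Φ) :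
    IsExactConformal a Φ := h.2

lemma wchart_of {j : L → CotangentBundle F N} {O : Set (CotangentBundle F L)}
    {w : CotangentBundle F L → CotangentBundle F N} (h : WeinsteinChart j O w) :
    WChart (L := L) (N := N) j O w := by
  obtain ⟨⟨h1, h2, h3⟩, h4, h5, h6, ⟨g, hg, h7⟩, h8⟩ := h
  refine ⟨h1, h2, h3, h4, h5, h6, ⟨g, hg, fun ξ hξ u => ?_⟩, h8⟩
  rw [one_mul]
  exact h7 ξ hξ u

lemma of_wchart {j : L → CotangentBundle F N} {O : Set (CotangentBundle F L)}
    {w : CotangentBundle F L → CotangentBundle F N} (h : WChart (L := L) (N := N) j O w) :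
    WeinsteinChart j O w := by
  obtain ⟨h1, h2, h3, h4, h5, h6, ⟨g, hg, h7⟩, h8⟩ := h
  refine ⟨⟨h1, h2, h3⟩, h4, h5, h6, ⟨g, hg, fun ξ hξ u => ?_⟩, h8⟩
  have h9 := h7 ξ hξ u
  rw [one_mul] at h9
  exact h9

end Proof

open Pool.Agent.J4H58.Arn Pool.Agent.Helper186 in
/-- **Theorem.** Let `j : L → T^*N` be an exact Lagrange embedding, where `N` and `L` are closed
manifolds. The following are equivalent:
* (Arnold's conclusion) there is a symplectic diffeomorphism `ψ` of `T^*N` with `ψ(0_N) = j(L)`;
* `L ≅ N`, and there is a symplectic diffeomorphism `T^*L → T^*N` that is `j` on the zero section;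
* `L ≅ N`, and `j(L) = h(0_N)` for an exact symplectic homeomorphism `h` of `T^*N`;
* `L ≅ N`, and every neighbourhood of `j(L)` contains a set `ψ(V) ⊇ j(L)` with `ψ` an exact
  symplectic diffeomorphism of `T^*N` and `V` a star-shaped neighbourhood of the zero section;
* `L ≅ N`, and the image of one Weinstein chart of `j` contains such a set `ψ(V) ⊇ j(L)`;
* `L ≅ N`, and `j(L)` is the global attractor of a conformally exact symplectic diffeomorphism of
  `T^*N` with a factor `a < 1`. -/
theorem result
    {F : Type*} [NormedAddCommGroup F] [NormedSpace ℝ F] [FiniteDimensional ℝ F]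
    {N : Type*} [TopologicalSpace N] [T2Space N] [CompactSpace N] [ChartedSpace F N]
    [IsManifold 𝓘(ℝ, F) ∞ N]
    {L : Type*} [TopologicalSpace L] [T2Space L] [CompactSpace L] [Nonempty L]
    [ChartedSpace F L] [IsManifold 𝓘(ℝ, F) ∞ L]
    (j : L → CotangentBundle F N) (hj : ExactLagrangeEmbedding j) :
    List.TFAE [
      ArnoldConclusion j,
      AreDiffeomorphic F L N ∧ ExtendsToCotangentBundle j,
      AreDiffeomorphic F L N ∧ ∃ h : CotangentBundle F N ≃ₜ CotangentBundle F N,
        IsExactSymplecticHomeomorphism h ∧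
          h '' range (zeroSection F : N → CotangentBundle F N) = range j,
      AreDiffeomorphic F L N ∧ ∀ U : Set (CotangentBundle F N), IsOpen U → range j ⊆ U →
        ContainsStandardNeighbourhood j U,
      AreDiffeomorphic F L N ∧ ∃ (O : Set (CotangentBundle F L))
        (w : CotangentBundle F L → CotangentBundle F N),
          WeinsteinChart j O w ∧ ContainsStandardNeighbourhood j (w '' O),
      AreDiffeomorphic F L N ∧ ∃ (a : ℝ) (G : CotangentDiffeomorphism F N N), 0 < a ∧ a < 1 ∧
        IsExactConformal a G ∧ IsGlobalAttractor G (range j)] := by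
  obtain ⟨hjs, hje, hjimm, f₀, hf₀, hex⟩ := hj
  have hjc : IsCompact (range j) := isCompact_range hje.continuous
  -- symplectic implies exact
  have hexact : ∀ Φ : CotangentDiffeomorphism F L N, IsSymplectic Φ →
      (∀ z, Φ (zeroSection F z) = j z) → CSymp (L := L) (N := N) 1 Φ := fun Φ hΦ hΦj =>
    CSymp_of_symplectic (ι := j) hf₀ hex Φ.contMDiff hΦ hΦj
  have h12 : ExtendsToCotangentBundle j → ∀ U : Set (CotangentBundle F N), IsOpen U →
      range j ⊆ U → ContainsStandardNeighbourhood j U := by
    rintro ⟨Φ, hΦ, hΦj⟩ U hU hjU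
    obtain ⟨ψ, hψ, V, hV, h1, h2⟩ := small_nhds_of_symp (ι := j) Φ (hexact Φ hΦ hΦj) hΦj hU hjU
    exact ⟨ψ, of_csymp hψ, V, ⟨hV.1, hV.2, hV.3⟩, h1, h2⟩
  have h23 : (∀ U : Set (CotangentBundle F N), IsOpen U →
      range j ⊆ U → ContainsStandardNeighbourhood j U) →
      ∃ (O : Set (CotangentBundle F L)) (w : CotangentBundle F L → CotangentBundle F N),
        WeinsteinChart j O w ∧ ContainsStandardNeighbourhood j (w '' O) := by
    intro h
    obtain ⟨O, w, hw, -⟩ := exists_WChart (ι := j) hjs hje hjimm hf₀ hex isOpen_univ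
      (subset_univ _)
    have hw' := of_wchart hw
    refine ⟨O, w, hw', h _ hw'.open_image ?_⟩
    rintro _ ⟨z, rfl⟩
    exact ⟨zeroSection F z, hw'.nhd.zero_mem z, hw'.zero z⟩
  have h31 : (∃ (O : Set (CotangentBundle F L)) (w : CotangentBundle F L → CotangentBundle F N),
        WeinsteinChart j O w ∧ ContainsStandardNeighbourhood j (w '' O)) →
      ExtendsToCotangentBundle j := by
    rintro ⟨O, w, hw, ψ, hψ, V, hV, h1, h2⟩
    obtain ⟨Φ, hΦ, hΦj⟩ := main (wchart_of hw) (V := V) ⟨hV.1, hV.2, hV.3⟩ ψ (csymp_of hψ) h1 h2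
    exact ⟨Φ, hΦ.extDer, hΦj⟩
  have h14 : ExtendsToCotangentBundle j →
      ∃ (a : ℝ) (G : CotangentDiffeomorphism F N N), 0 < a ∧ a < 1 ∧ IsExactConformal a G ∧
        IsGlobalAttractor G (range j) := by
    rintro ⟨Φ, hΦ, hΦj⟩
    obtain ⟨G, hG, hGj⟩ := attractor_of_symp (ι := j) Φ (hexact Φ hΦ hΦj) hΦj (a := 1 / 2)
      (by norm_num) (by norm_num)
    exact ⟨1 / 2, G, by norm_num, by norm_num, of_csymp hG, hGj⟩
  have h42 : (∃ (a : ℝ) (G : CotangentDiffeomorphism F N N), 0 < a ∧ a < 1 ∧
      IsExactConformal a G ∧ IsGlobalAttractor G (range j)) →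
      ∀ U : Set (CotangentBundle F N), IsOpen U → range j ⊆ U →
        ContainsStandardNeighbourhood j U := by
    rintro ⟨a, G, ha, -, hG, hGj⟩ U hU hjU
    obtain ⟨ψ, hψ, V, hV, h1, h2⟩ := small_nhds_of_attractor hjc ha G (csymp_of hG) hGj hU hjU
    exact ⟨ψ, of_csymp hψ, V, ⟨hV.1, hV.2, hV.3⟩, h1, h2⟩
  have hhomeo : (∃ h : CotangentBundle F N ≃ₜ CotangentBundle F N,
      IsExactSymplecticHomeomorphism h ∧
        h '' range (zeroSection F : N → CotangentBundle F N) = range j) →
      ExtendsToCotangentBundle j := by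
    rintro ⟨h, ⟨ψ, hψ, hψ1, hψ2⟩, hh⟩
    apply h31
    apply h23
    intro U hU hjU
    obtain ⟨φ, hφ, V, hV, h1, h2⟩ := small_nhds_of_homeo (F := F) (N := N) (K := range j) (h := h)
      ⟨ψ, fun n => csymp_of (hψ n), hψ1, hψ2⟩ hh hU hjU
    exact ⟨φ, of_csymp hφ, V, ⟨hV.1, hV.2, hV.3⟩, h1, h2⟩
  have harn : ArnoldConclusion j ↔ (AreDiffeomorphic F L N ∧ ExtendsToCotangentBundle j) :=
    arnold_iff (ι := j) hjs hje hjimm
  tfae_have 1 ↔ 2 := harn
  tfae_have 2 → 3 := by
    rintro ⟨⟨g⟩, Φ, hΦ, hΦj⟩
    obtain ⟨h, ⟨ψ, hψ, hψ1, hψ2⟩, hh⟩ := homeo_of_symp (ι := j) g Φ (hexact Φ hΦ hΦj) hΦj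
    exact ⟨⟨g⟩, h, ⟨ψ, fun n => of_csymp (hψ n), hψ1, hψ2⟩, hh⟩
  tfae_have 3 → 2 := fun ⟨hg, h⟩ => ⟨hg, hhomeo h⟩
  tfae_have 2 → 4 := fun ⟨hg, h⟩ => ⟨hg, h12 h⟩
  tfae_have 4 → 5 := fun ⟨hg, h⟩ => ⟨hg, h23 h⟩
  tfae_have 5 → 2 := fun ⟨hg, h⟩ => ⟨hg, h31 h⟩
  tfae_have 2 → 6 := fun ⟨hg, h⟩ => ⟨hg, h14 h⟩
  tfae_have 6 → 4 := fun ⟨hg, h⟩ => ⟨hg, h42 h⟩
  tfae_finish

end Pool.Agent.Results.MP_3dbb84_gt.SymplecticHomeomorphisms
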